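import Mathlib
import Pool.Agent.R135.OPDim2

/-!
# MP_d88d3c_co, Q1: order polytope h*-polynomials come from polytopes of two fewer dimensions

Let `Q` be a finite poset with `d` elements and at least one comparable pair (so its order polytope
is not the cube).  Then there is a lattice polytope of dimension `d - 2` with the same
`h*`-polynomial as the order polytope of `Q`.

Construction.  If `Q` has no isolated points, project the order polytope along `1_Q` and the
indicator vector of the set of maximal elements; the lattice points of the `n`-th dilate of the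
projection correspond to order preserving maps with minimum `0` and maximum exactly `n`.  Adding an
isolated point corresponds to replacing a polytope `P` by two pyramids over the two ends of the
prism `P × [1,2]`.
-/

set_option autoImplicit false
open scoped Pointwise Classical

namespace Pool.Agent.Results.MP_d88d3c_co.CodimensionTwo

/-- The order polytope `O_Q = {x ∈ [0,1]^Q : x_a ≤ x_b whenever a ≤ b}`. -/
def orderPolytope (Q : Type) [PartialOrder Q] : Set (Q → ℝ) :=
  {x | (∀ a, 0 ≤ x a ∧ x a ≤ 1) ∧ ∀ a b, a ≤ b → x a ≤ x b}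

/-- The Ehrhart series `∑_{n ≥ 0} #(nP ∩ ℤ^κ) zⁿ`. -/
noncomputable def ehrhartSeries {κ : Type} (P : Set (κ → ℝ)) : PowerSeries ℤ :=
  PowerSeries.mk fun n =>
    (Set.ncard {z : κ → ℤ | (fun i => (z i : ℝ)) ∈ (n : ℝ) • P} : ℤ)

/-- `h` is the `h*`-polynomial of the `e`-dimensional polytope `P`:
`Ehr_P(z) = h(z) / (1-z)^{e+1}`. -/
def IsHStar {κ : Type} (P : Set (κ → ℝ)) (e : ℕ) (h : Polynomial ℤ) : Prop :=
  ehrhartSeries P * (1 - (PowerSeries.X : PowerSeries ℤ)) ^ (e + 1) = (h : PowerSeries ℤ)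

/-- A lattice polytope in `ℝ^m`: the convex hull of a nonempty finite set of integer points. -/
def IsLatticePolytope {m : ℕ} (P : Set (Fin m → ℝ)) : Prop :=
  ∃ S : Finset (Fin m → ℤ), S.Nonempty ∧
    P = convexHull ℝ ((fun z : Fin m → ℤ => fun i => (z i : ℝ)) '' (S : Set (Fin m → ℤ)))

open Pool.Agent.R135.OPDim

/-- transport to coordinates `Fin m` -/
lemma reindex {ι : Type} [Fintype ι] {m : ℕ} (e : ι ≃ Fin m) (S : Finset (ι → ℤ)) :
    latPoly (S.image (fun z => z ∘ e.symm)) =
      (fun x : ι → ℝ => x ∘ e.symm) '' latPoly S := by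
  unfold latPoly
  have h1 : (fun x : ι → ℝ => x ∘ e.symm) = (LinearMap.funLeft ℝ ℝ e.symm) := rfl
  rw [h1, LinearMap.image_convexHull]
  congr 1
  rw [Finset.coe_image, Set.image_image, Set.image_image]
  rfl

lemma reindex_count {ι : Type} [Fintype ι] {m : ℕ} (e : ι ≃ Fin m) (S : Finset (ι → ℤ)) (n : ℕ) :
    Nat.card (LatT (latPoly (S.image (fun z => z ∘ e.symm))) n) = Nat.card (LatT (latPoly S) n) := by
  apply Nat.card_congr
  refine Equiv.subtypeEquiv (Equiv.arrowCongr e.symm (Equiv.refl ℤ)) ?_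
  intro z
  rw [reindex]
  constructor
  · rintro ⟨_, ⟨x, hx, rfl⟩, hz⟩
    refine ⟨x, hx, ?_⟩
    funext i
    have := congrFun hz (e i)
    show (n : ℝ) * x i = (z (e i) : ℝ)
    have h2 : (n : ℝ) * x (e.symm (e i)) = (z (e i) : ℝ) := this
    rwa [e.symm_apply_apply] at h2
  · rintro ⟨x, hx, hz⟩
    refine ⟨_, ⟨x, hx, rfl⟩, ?_⟩
    funext j
    have := congrFun hz (e.symm j)
    have h2 : (n : ℝ) * x (e.symm j) = (z (e (e.symm j)) : ℝ) := this
    rw [e.apply_symm_apply] at h2
    exact h2

lemma reindex_finrank {ι : Type} [Fintype ι] {m : ℕ} (e : ι ≃ Fin m) (S : Finset (ι → ℤ)) :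
    Module.finrank ℝ (Submodule.span ℝ (rl '' ((S.image (fun z => z ∘ e.symm) :
      Finset (Fin m → ℤ)) : Set (Fin m → ℤ))))
      = Module.finrank ℝ (Submodule.span ℝ (rl '' (S : Set (ι → ℤ)))) := by
  have h1 : rl '' ((S.image (fun z => z ∘ e.symm) : Finset (Fin m → ℤ)) : Set (Fin m → ℤ))
      = (LinearEquiv.funCongrLeft ℝ ℝ e.symm) '' (rl '' (S : Set (ι → ℤ))) := by
    rw [Finset.coe_image, Set.image_image, Set.image_image]
    rfl
  rw [h1]
  have h2 := Submodule.map_span (LinearEquiv.funCongrLeft ℝ ℝ e.symm).toLinearMap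
    (rl '' (S : Set (ι → ℤ)))
  have h3 : ((LinearEquiv.funCongrLeft ℝ ℝ e.symm).toLinearMap '' (rl '' (S : Set (ι → ℤ))))
      = ((LinearEquiv.funCongrLeft ℝ ℝ e.symm) '' (rl '' (S : Set (ι → ℤ)))) := rfl
  rw [h3] at h2
  rw [← h2]
  exact LinearEquiv.finrank_map_eq _ _

/-- the unit cube `[0,1]^Q` -/
def cube (Q : Type) : Set (Q → ℝ) := {x | ∀ a, 0 ≤ x a ∧ x a ≤ 1}

/-- a poset whose order polytope is not the cube has a comparable pair -/
lemma exists_lt (Q : Type) [PartialOrder Q] (hQ : orderPolytope Q ≠ cube Q) :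
    ∃ a b : Q, a < b := by
  by_contra h
  push Not at h
  apply hQ
  ext x
  constructor
  · intro hx
    exact hx.1
  · intro hx
    refine ⟨hx, fun a b hab => ?_⟩
    have : a = b := by
      by_contra hne
      exact h a b (lt_of_le_of_ne hab hne)
    rw [this]

/-- **Q1 of MP_d88d3c_co is true.**  For every finite poset `Q` whose order polytope is not the
cube (equivalently, with at least one comparable pair) there is a lattice polytope `P` of dimension
`|Q| - 2` (in some `ℝ^m`, with respect to `ℤ^m`) with the same `h*`-polynomial as the order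
polytope of `Q`. -/
theorem result (Q : Type) [Fintype Q] [PartialOrder Q] (hcube : orderPolytope Q ≠ cube Q) :
    ∃ (m : ℕ) (P : Set (Fin m → ℝ)), IsLatticePolytope P ∧
      Module.finrank ℝ (vectorSpan ℝ P) = Fintype.card Q - 2 ∧
      ∃ h : Polynomial ℤ, IsHStar (orderPolytope Q) (Fintype.card Q) h ∧
        IsHStar P (Fintype.card Q - 2) h := by
  have hQ := exists_lt Q hcube
  obtain ⟨ι, hι, S, h0, hdim, hcount⟩ := good_all _ Q rfl hQ
  obtain ⟨h, hh⟩ := exists_hstar Q
  obtain ⟨a, b, hab⟩ := hQ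
  have hne : Nonempty Q := ⟨a⟩
  have hcard : 2 ≤ Fintype.card Q := by
    have : 1 < Fintype.card Q := by
      rw [Fintype.one_lt_card_iff]
      exact ⟨a, b, ne_of_lt hab⟩
    exact this
  let e : ι ≃ Fin (Fintype.card ι) := Fintype.equivFin ι
  have hzero : (0 : Fin (Fintype.card ι) → ℤ) ∈ S.image (fun z => z ∘ e.symm) := by
    rw [Finset.mem_image]
    exact ⟨0, h0, rfl⟩
  refine ⟨Fintype.card ι, latPoly (S.image (fun z => z ∘ e.symm)),
    ⟨S.image (fun z => z ∘ e.symm), ⟨_, hzero⟩, rfl⟩, ?_, h, ?_, ?_⟩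
  · rw [finrank_vectorSpan _ hzero, reindex_finrank, hdim]
  · unfold IsHStar ehrhartSeries
    rw [← hh]
    congr 2
    funext n
    exact congrArg Nat.cast (ncard_orderPolytope Q n)
  · have h1 : ehrhartSeries (latPoly (S.image (fun z => z ∘ e.symm)))
        = PowerSeries.mk (fun n => (ee Q n : ℤ)) := by
      unfold ehrhartSeries
      congr 1
      funext n
      congr 1
      rw [← (hcount n).2, ← reindex_count e S n]
      exact (Nat.card_coe_set_eq _).symm
    unfold IsHStar
    rw [h1, ee_gf, ← hh]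
    have h2 : Fintype.card Q + 1 = 2 + (Fintype.card Q - 2 + 1) := by omega
    rw [h2, pow_add]
    ring

end Pool.Agent.Results.MP_d88d3c_co.CodimensionTwo
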